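import Pool.Agent.N561.C.Stm
import Pool.Agent.W398.HT.STPE

/-!
# The clasp: assembly
-/

set_option autoImplicit false

namespace Pool.Agent.N886.VS

open Finset Filter Topology Metric
open Pool.Agent.N561
open Pool.Agent.W711.HT hiding XX
open Pool.Agent.TH563.UV
open Pool.Agent.TH563.V
open scoped Real

/-- the rectangle `Rc r r` shrinks with `r` -/
lemma rc_sub {r r' s t : ℝ} (h1 : s ≤ r) (h2 : t ≤ r') {z : ℂ} (hz : z ∈ Rc s t) : z ∈ Rc r r' :=
  ⟨hz.1.trans_le h1, hz.2.trans_le h2⟩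

/-- the logarithm of `2 π / N` -/
lemma log_small {ε : ℝ} (hε : 0 < ε) : ∀ᶠ N : ℕ in atTop, |Real.log (2 * π / N)| ≤ ε * N := by
  have h1 : Tendsto (fun N : ℕ => Real.log (N : ℝ) / N) atTop (𝓝 0) := by
    have h2 := Real.isLittleO_log_id_atTop.tendsto_div_nhds_zero
    exact h2.comp tendsto_natCast_atTop_atTop
  have h3 : Tendsto (fun N : ℕ => |Real.log (2 * π)| / (N : ℝ)) atTop (𝓝 0) :=
    tendsto_const_nhds.div_atTop tendsto_natCast_atTop_atTop
  have h4 := h3.add h1
  rw [add_zero] at h4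
  filter_upwards [h4.eventually_lt_const hε, eventually_ge_atTop 1] with N hN hN1
  have hN0 : (0 : ℝ) < N := by exact_mod_cast hN1
  have hN1' : (1 : ℝ) ≤ N := by exact_mod_cast hN1
  have hl : 0 ≤ Real.log N := Real.log_nonneg hN1'
  rw [Real.log_div (by positivity) hN0.ne']
  have h5 : |Real.log (2 * π) - Real.log N| ≤ |Real.log (2 * π)| + Real.log N := by
    have := abs_sub (Real.log (2 * π)) (Real.log N)
    rwa [abs_of_nonneg hl] at this
  refine h5.trans ?_
  rw [← add_div, div_lt_iff₀ hN0] at hN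
  exact hN.le

/-- **job K10**: the clasp -/
theorem clasp (h1 : S_CEX) (h3 : S_CNEAR) (h5 : S_CFAR) (h2 : S_CQ) (h6 : S_CF) (h8 : S_CGEO)
    (h9 : S_CCR) : S_CLASP := by
  refine ⟨zc 0, sg, h8, fun g hg => ?_⟩
  obtain ⟨r, k, hr0, -, hk, hcr⟩ := h9 g hg
  obtain ⟨r', hr'0, -, hnear⟩ := h3
  obtain ⟨r'', c, C, hr''0, hc, hC, hFd, hFe, hF2⟩ := h6
  have hpos : 0 < (FC 0).re := h2.2.2.2.2.2.1
  refine ⟨min r (min r' r''), c, C, lt_min hr0 (lt_min hr'0 hr''0), hc, hC, ?_⟩
  intro a₀ b₀ hb₀ hba h3a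
  have ha₀ : 0 < a₀ := hb₀.trans_le hba
  have k1 : 3 * a₀ ≤ r := h3a.trans (min_le_left _ _)
  have k2 : 3 * a₀ ≤ r' := h3a.trans ((min_le_right _ _).trans (min_le_left _ _))
  have k3 : 3 * a₀ ≤ r'' := h3a.trans ((min_le_right _ _).trans (min_le_right _ _))
  obtain ⟨κ, hκ, hfar⟩ := h5 a₀ ha₀
  refine ⟨κ, hκ, fun ψ => FC ψ + k, zc, ⟨?_, ?_, ?_, ?_, ?_, ?_⟩, ?_⟩
  · exact (Pool.Agent.W398.HT.t_STPE (-2) (fun _ _ => 1) fun N => differentiable_const _).1
  · exact (Pool.Agent.W398.HT.t_STPE (-2) (fun _ _ => 1) fun N => differentiable_const _).2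
  · simp only [Complex.add_re]
    rw [hk]
    linarith
  · have hd2 : deriv (deriv fun ψ => FC ψ + k) = deriv (deriv FC) := by
      congr 1
      funext ψ
      exact deriv_add_const k
    refine ⟨?_, ?_, ?_, ?_⟩
    · exact (hFd.mono fun z hz => rc_sub k3 (by linarith) hz).add_const k
    · intro w hw
      change FC (-w) + k = FC w + k
      rw [hFe w (rc_sub k3 (by linarith) hw)]
    · intro w hw
      rw [hd2]
      have := (hF2 w (rc_sub (by linarith) (by linarith) hw)).1
      simpa using this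
    · intro w hw
      rw [hd2]
      have := (hF2 w (rc_sub (by linarith) (by linarith) hw)).2
      simpa using this
  · intro ε hε
    filter_upwards [hnear (ε / 2) (by positivity), log_small (ε := ε / 2) (by positivity),
      eventually_ge_atTop 2] with N e1 e2 hN2 z hz
    obtain ⟨f1, f2⟩ := e1 z (rc_sub (by linarith) (by linarith) hz)
    obtain ⟨u, hu, hst⟩ := h1 N hN2
    have hN0 : (0 : ℝ) < N := by
      have : 0 < N := by omega
      exact_mod_cast this
    have hn : ‖stp (-2) (fun _ _ => 1) N z‖ = 2 * π / N * ‖Wc N z‖ := by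
      rw [hst z, norm_mul, norm_mul, hu, mul_one]
      congr 1
      rw [norm_div, norm_mul, Complex.norm_real, Real.norm_of_nonneg Real.pi_pos.le]
      simp
    have hq : 0 < 2 * π / (N : ℝ) := by positivity
    have hw : 0 < ‖Wc N z‖ := norm_pos_iff.mpr f1
    refine ⟨?_, ?_⟩
    · rw [← norm_pos_iff, hn]
      positivity
    · rw [hn, Real.log_mul hq.ne' hw.ne']
      have e3 : ((fun ψ => FC ψ + k) z).re = (FC z).re := by
        simp only [Complex.add_re]
        rw [hk, add_zero]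
      rw [e3]
      have e4 : Real.log (2 * π / N) + Real.log ‖Wc N z‖ - N * (FC z).re =
          Real.log (2 * π / N) + (Real.log ‖Wc N z‖ - N * (FC z).re) := by ring
      rw [e4]
      refine (abs_add_le _ _).trans ?_
      linarith
  · filter_upwards [hfar, eventually_ge_atTop 7] with N e1 hN x y hx hx' hy
    obtain ⟨u, hu, hst⟩ := h1 N (by omega)
    have hN0 : (7 : ℝ) ≤ N := by exact_mod_cast hN
    have hn : ‖stp (-2) (fun _ _ => 1) N (x + y * Complex.I)‖ =
        2 * π / N * ‖Wc N (x + y * Complex.I)‖ := by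
      rw [hst, norm_mul, norm_mul, hu, mul_one]
      congr 1
      rw [norm_div, norm_mul, Complex.norm_real, Real.norm_of_nonneg Real.pi_pos.le]
      simp
    have hq : 2 * π / (N : ℝ) ≤ 1 := by
      rw [div_le_one (by linarith)]
      have := Real.pi_lt_d2
      linarith
    rw [hn]
    have e2 := e1 x y hx hx' hy
    have e3 : ((fun ψ => FC ψ + k) 0).re = (FC 0).re := by
      simp only [Complex.add_re]
      rw [hk, add_zero]
    rw [e3]
    calc 2 * π / N * ‖Wc N (x + y * Complex.I)‖ ≤ 1 * Real.exp (N * ((FC 0).re - κ)) := by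
          gcongr
      _ ≤ Real.exp (N * ((FC 0).re - ((1 : ℕ) : ℝ) * (κ / 2))) := by
          rw [one_mul]
          refine Real.exp_le_exp.mpr (mul_le_mul_of_nonneg_left ?_ (by linarith))
          push_cast
          linarith
  · intro ψ hψ
    obtain ⟨f1, f2, f3, f4⟩ := hcr ψ (rc_sub k1 (by linarith) hψ)
    refine ⟨f1, ?_, f3, f4.add_const k⟩
    push_cast
    exact f2

end Pool.Agent.N886.VS
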